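import Mathlib

set_option autoImplicit false

/-! Harmonic functions on graphs. -/

namespace Pool.Agent.N983.LH

/-- `f` has the mean-value property for simple random walk. -/
def Harmonic {V : Type} (G : SimpleGraph V) [G.LocallyFinite] (f : V → ℝ) : Prop :=
  ∀ x, f x = (∑ y ∈ G.neighborFinset x, f y) / (G.degree x : ℝ)

/-- `f` is Lipschitz. -/
def Lipschitz {V : Type} (G : SimpleGraph V) (f : V → ℝ) : Prop :=
  ∃ C : ℝ, ∀ x y, G.Adj x y → |f x - f y| ≤ C

open Classical in
/-- the probability that simple random walk started at `x` visits `o` at one of the times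
`0, 1, …, k` -/
noncomputable def hit {V : Type} (G : SimpleGraph V) [G.LocallyFinite] (o : V) : ℕ → V → ℝ
  | 0, x => if x = o then 1 else 0
  | k + 1, x =>
    if x = o then 1 else (∑ y ∈ G.neighborFinset x, hit G o k y) / (G.degree x : ℝ)

/-- Simple random walk on `G` is transient: for every vertex `o` the probabilities that the walk
started at `o` returns to `o` at one of the times `1, …, k + 1` are bounded by a number `c < 1`. -/
def Transient {V : Type} (G : SimpleGraph V) [G.LocallyFinite] : Prop :=
  ∀ o : V, ∃ c : ℝ, c < 1 ∧ ∀ k : ℕ,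
    (∑ y ∈ G.neighborFinset o, hit G o k y) / (G.degree o : ℝ) ≤ c

/-- `G` has more than one end: the complement of some finite set of vertices has at least two
infinite connected components. -/
def TwoEnds {V : Type} (G : SimpleGraph V) : Prop :=
  ∃ (K : Finset V) (C₁ C₂ : (G.induce {v | v ∉ K}).ConnectedComponent),
    C₁ ≠ C₂ ∧ C₁.supp.Infinite ∧ C₂.supp.Infinite

/-- answer to Q1 -/
def S_Q1 : Prop := ∃ (V : Type) (G : SimpleGraph V) (_ : G.LocallyFinite),
  Infinite V ∧ G.Connected ∧ (∀ x, G.degree x ≤ 4) ∧ Transient G ∧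
    ∀ f : V → ℝ, Harmonic G f → ∀ x y, f x = f y

/-- answer to Q2 -/
def S_Q2 : Prop := ∀ (V : Type) (G : SimpleGraph V) [G.LocallyFinite], G.Connected → TwoEnds G →
  ∃ f : V → ℝ, Harmonic G f ∧ Lipschitz G f ∧ ∃ x y, f x ≠ f y

end Pool.Agent.N983.LH
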