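import Pool.Agent.N983.LH.Def

/-!
A transient graph of degree at most 4 all of whose harmonic functions are constant.
-/

set_option autoImplicit false

namespace Pool.Agent.N983.LH

/-- the windows -/
def q1I (n : ℕ) : Finset ℕ := Finset.Ico (n / 3) (n - n / 3)

theorem q1_mem_I (n q : ℕ) : q ∈ q1I n ↔ n / 3 ≤ q ∧ q < n - n / 3 := by
  simp [q1I]

/-- the vertices -/
def Q1V : Type := {p : ℕ × Finset ℕ // p.2 ⊆ q1I p.1}

/-- the level of a vertex -/
def q1lv (x : Q1V) : ℕ := x.1.1

/-- the set of ones of a vertex -/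
def q1st (x : Q1V) : Finset ℕ := x.1.2

theorem q1_sub (x : Q1V) : q1st x ⊆ q1I (q1lv x) := x.2

theorem q1_ext {x y : Q1V} (h1 : q1lv x = q1lv y) (h2 : q1st x = q1st y) : x = y :=
  Subtype.ext (Prod.ext h1 h2)

/-- constructor -/
def q1mk (n : ℕ) (S : Finset ℕ) (h : S ⊆ q1I n) : Q1V := ⟨(n, S), h⟩

theorem q1lv_mk (n : ℕ) (S : Finset ℕ) (h : S ⊆ q1I n) : q1lv (q1mk n S h) = n := rfl

theorem q1st_mk (n : ℕ) (S : Finset ℕ) (h : S ⊆ q1I n) : q1st (q1mk n S h) = S := rfl

/-- the graph -/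
def q1G : SimpleGraph Q1V where
  Adj x y := (q1lv y = q1lv x + 1 ∨ q1lv x = q1lv y + 1) ∧
    q1st x ∩ q1I (q1lv y) = q1st y ∩ q1I (q1lv x)
  symm := ⟨by
    rintro x y ⟨h1, h2⟩
    exact ⟨h1.symm, h2.symm⟩⟩
  loopless := ⟨by
    rintro x ⟨h1, h2⟩
    omega⟩

theorem q1_adj (x y : Q1V) : q1G.Adj x y ↔ (q1lv y = q1lv x + 1 ∨ q1lv x = q1lv y + 1) ∧
    q1st x ∩ q1I (q1lv y) = q1st y ∩ q1I (q1lv x) := Iff.rfl

theorem q1_finite (N : ℕ) : {y : Q1V | q1lv y ≤ N}.Finite := by
  have h : (((Finset.range (N + 1)) ×ˢ (Finset.range (N + 1)).powerset :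
      Finset (ℕ × Finset ℕ)) : Set (ℕ × Finset ℕ)).Finite := Finset.finite_toSet _
  refine (h.preimage (f := fun y : Q1V => y.1) (Subtype.val_injective.injOn)).subset ?_
  intro y hy
  simp only [Set.mem_preimage, Finset.coe_product, Set.mem_prod, Finset.mem_coe,
    Finset.mem_range, Finset.mem_powerset]
  have hy' : q1lv y ≤ N := hy
  refine ⟨by have : y.1.1 ≤ N := hy'; omega, fun q hq => ?_⟩
  have h1 := (q1_mem_I _ _).1 (q1_sub y hq)
  simp only [Finset.mem_range]
  omega

noncomputable instance : q1G.LocallyFinite := fun x =>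
  ((q1_finite (q1lv x + 1)).subset (by
    rintro y hy
    have h1 := ((q1_adj x y).1 hy).1
    change q1lv y ≤ q1lv x + 1
    omega)).fintype

theorem q1_nb (x : Q1V) (m : ℕ) (hm : m = q1lv x + 1 ∨ q1lv x = m + 1) :
    q1G.Adj x (q1mk m (q1st x ∩ q1I m) Finset.inter_subset_right) := by
  refine ⟨hm, ?_⟩
  rw [q1lv_mk, q1st_mk]
  ext q
  simp only [Finset.mem_inter]
  constructor
  · rintro ⟨h1, h2⟩
    exact ⟨⟨h1, h2⟩, q1_sub x h1⟩
  · rintro ⟨h1, _⟩
    exact h1

/-- counting neighbours in a level -/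
theorem q1_count (x : Q1V) (m : ℕ) (hm : m = q1lv x + 1 ∨ q1lv x = m + 1) :
    ((q1G.neighborFinset x).filter (fun y => q1lv y = m)).card
      = 2 ^ (q1I m \ q1I (q1lv x)).card := by
  rw [← Finset.card_powerset]
  refine Finset.card_bij' (fun y _ => q1st y \ q1I (q1lv x))
    (fun R hR => q1mk m (R ∪ (q1st x ∩ q1I m)) ?_) ?_ ?_ ?_ ?_
  · intro q hq
    rcases Finset.mem_union.1 hq with h | h
    · exact (Finset.mem_sdiff.1 (Finset.mem_powerset.1 hR h)).1
    · exact (Finset.mem_inter.1 h).2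
  · intro y hy
    rw [Finset.mem_filter] at hy
    rw [Finset.mem_powerset]
    intro q hq
    rw [Finset.mem_sdiff] at hq ⊢
    refine ⟨?_, hq.2⟩
    rw [← hy.2]
    exact q1_sub y hq.1
  · intro R hR
    rw [Finset.mem_filter, SimpleGraph.mem_neighborFinset, q1_adj, q1lv_mk, q1st_mk]
    refine ⟨⟨hm, ?_⟩, rfl⟩
    ext q
    simp only [Finset.mem_inter, Finset.mem_union]
    constructor
    · rintro ⟨h1, h2⟩
      exact ⟨Or.inr ⟨h1, h2⟩, q1_sub x h1⟩
    · rintro ⟨h1 | h1, h2⟩
      · exact absurd h2 (Finset.mem_sdiff.1 (Finset.mem_powerset.1 hR h1)).2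
      · exact h1
  · intro y hy
    rw [Finset.mem_filter, SimpleGraph.mem_neighborFinset, q1_adj] at hy
    obtain ⟨⟨_, h1⟩, h2⟩ := hy
    refine q1_ext ?_ ?_
    · rw [q1lv_mk, h2]
    · rw [q1st_mk]
      rw [h2] at h1
      rw [h1]
      exact Finset.sdiff_union_inter _ _
  · intro R hR
    rw [q1st_mk]
    ext q
    simp only [Finset.mem_sdiff, Finset.mem_union, Finset.mem_inter]
    constructor
    · rintro ⟨h1 | h1, h2⟩
      · exact h1
      · exact absurd (q1_sub x h1.1) h2
    · intro h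
      exact ⟨Or.inl h, (Finset.mem_sdiff.1 (Finset.mem_powerset.1 hR h)).2⟩

/-- the number of upper neighbours -/
def q1a (n : ℕ) : ℕ := if n % 3 = 2 then 1 else 2

/-- the number of lower neighbours -/
def q1b (n : ℕ) : ℕ := if n = 0 then 0 else if n % 3 = 0 then 2 else 1

theorem q1_up (x : Q1V) : ((q1G.neighborFinset x).filter (fun y => q1lv y = q1lv x + 1)).card
    = q1a (q1lv x) := by
  rw [q1_count x _ (Or.inl rfl)]
  unfold q1a
  split_ifs with h
  · have : q1I (q1lv x + 1) \ q1I (q1lv x) = ∅ := by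
      ext q
      simp only [Finset.mem_sdiff, q1_mem_I, Finset.notMem_empty, iff_false]
      omega
    rw [this]
    simp
  · have : q1I (q1lv x + 1) \ q1I (q1lv x) = {q1lv x - q1lv x / 3} := by
      ext q
      simp only [Finset.mem_sdiff, q1_mem_I, Finset.mem_singleton]
      omega
    rw [this]
    simp

theorem q1_dn (x : Q1V) : ((q1G.neighborFinset x).filter (fun y => ¬ q1lv y = q1lv x + 1)).card
    = q1b (q1lv x) := by
  have h0 : (q1G.neighborFinset x).filter (fun y => ¬ q1lv y = q1lv x + 1) =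
      (q1G.neighborFinset x).filter (fun y => q1lv x = q1lv y + 1) := by
    ext y
    simp only [Finset.mem_filter, SimpleGraph.mem_neighborFinset, q1_adj]
    constructor
    · rintro ⟨⟨h1, h2⟩, h3⟩
      exact ⟨⟨h1, h2⟩, by tauto⟩
    · rintro ⟨h1, h2⟩
      exact ⟨h1, by omega⟩
  rw [h0]
  unfold q1b
  split_ifs with h1 h2
  · rw [Finset.card_eq_zero, Finset.filter_eq_empty_iff]
    intro y _
    omega
  · have h3 : (q1G.neighborFinset x).filter (fun y => q1lv x = q1lv y + 1) =
      (q1G.neighborFinset x).filter (fun y => q1lv y = q1lv x - 1) := by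
      refine Finset.filter_congr fun y _ => ?_
      omega
    rw [h3, q1_count x _ (Or.inr (by omega))]
    have : q1I (q1lv x - 1) \ q1I (q1lv x) = {(q1lv x - 1) / 3} := by
      ext q
      simp only [Finset.mem_sdiff, q1_mem_I, Finset.mem_singleton]
      omega
    rw [this]
    simp
  · have h3 : (q1G.neighborFinset x).filter (fun y => q1lv x = q1lv y + 1) =
      (q1G.neighborFinset x).filter (fun y => q1lv y = q1lv x - 1) := by
      refine Finset.filter_congr fun y _ => ?_
      omega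
    rw [h3, q1_count x _ (Or.inr (by omega))]
    have : q1I (q1lv x - 1) \ q1I (q1lv x) = ∅ := by
      ext q
      simp only [Finset.mem_sdiff, q1_mem_I, Finset.notMem_empty, iff_false]
      omega
    rw [this]
    simp

/-- sums of functions of the level over the neighbours -/
theorem q1_sum (x : Q1V) (F : ℕ → ℝ) : ∑ y ∈ q1G.neighborFinset x, F (q1lv y) =
    q1a (q1lv x) * F (q1lv x + 1) + q1b (q1lv x) * F (q1lv x - 1) := by
  rw [← Finset.sum_filter_add_sum_filter_not (q1G.neighborFinset x)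
    (fun y => q1lv y = q1lv x + 1)]
  congr 1
  · rw [Finset.sum_congr rfl (g := fun _ => F (q1lv x + 1)) (fun y hy => by
      rw [(Finset.mem_filter.1 hy).2]), Finset.sum_const, q1_up, nsmul_eq_mul]
  · rw [Finset.sum_congr rfl (g := fun _ => F (q1lv x - 1)) (fun y hy => by
      have h1 := Finset.mem_filter.1 hy
      rw [SimpleGraph.mem_neighborFinset, q1_adj] at h1
      have h2 : q1lv y = q1lv x - 1 := by omega
      rw [h2]), Finset.sum_const, q1_dn, nsmul_eq_mul]

theorem q1_degree (x : Q1V) : q1G.degree x = q1a (q1lv x) + q1b (q1lv x) := by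
  have h := q1_sum x (fun _ => 1)
  rw [Finset.sum_const, SimpleGraph.card_neighborFinset_eq_degree] at h
  simp only [nsmul_eq_mul, mul_one] at h
  exact_mod_cast h

theorem q1_deg_pos (x : Q1V) : 0 < q1G.degree x := by
  rw [q1_degree]
  unfold q1a
  split_ifs <;> omega

theorem q1_deg_le (x : Q1V) : q1G.degree x ≤ 4 := by
  rw [q1_degree]
  unfold q1a q1b
  split_ifs <;> omega

/-- the flips -/
def q1flip (p : ℕ) (x : Q1V) : Q1V :=
  q1mk (q1lv x) (if p ∈ q1I (q1lv x) then symmDiff (q1st x) {p} else q1st x) (by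
    split_ifs with h
    · intro q hq
      rw [Finset.mem_symmDiff] at hq
      rcases hq with h1 | h1
      · exact q1_sub x h1.1
      · rw [Finset.mem_singleton.1 h1.1]
        exact h
    · exact q1_sub x)

theorem q1_flip_lv (p : ℕ) (x : Q1V) : q1lv (q1flip p x) = q1lv x := rfl

theorem q1_flip_mem (p : ℕ) (x : Q1V) (q : ℕ) : q ∈ q1st (q1flip p x) ↔
    ((q = p ∧ p ∈ q1I (q1lv x)) ∧ ¬ q ∈ q1st x) ∨ (¬ (q = p ∧ p ∈ q1I (q1lv x)) ∧ q ∈ q1st x) := by
  unfold q1flip
  rw [q1st_mk]
  split_ifs with h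
  · rw [Finset.mem_symmDiff, Finset.mem_singleton]
    tauto
  · tauto

theorem q1_flip_flip (p : ℕ) (x : Q1V) : q1flip p (q1flip p x) = x := by
  refine q1_ext rfl ?_
  ext q
  rw [q1_flip_mem, q1_flip_mem, q1_flip_lv]
  tauto

theorem q1_flip_adj (p : ℕ) {x y : Q1V} (h : q1G.Adj x y) :
    q1G.Adj (q1flip p x) (q1flip p y) := by
  rw [q1_adj] at h ⊢
  refine ⟨h.1, ?_⟩
  ext q
  have h1 : q ∈ q1st x ∩ q1I (q1lv y) ↔ q ∈ q1st y ∩ q1I (q1lv x) := by rw [h.2]
  have h2 := @q1_sub x q
  have h3 := @q1_sub y q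
  rw [Finset.mem_inter, Finset.mem_inter] at h1 ⊢
  rw [q1_flip_mem, q1_flip_mem, q1_flip_lv, q1_flip_lv]
  by_cases hq : q = p
  · subst hq
    tauto
  · tauto

theorem q1_flip_far (p : ℕ) (x : Q1V) (h : p ∉ q1I (q1lv x)) : q1flip p x = x := by
  refine q1_ext rfl ?_
  unfold q1flip
  rw [q1st_mk, if_neg h]

theorem q1_harm_sum {f : Q1V → ℝ} (hf : Harmonic q1G f) (x : Q1V) :
    ∑ y ∈ q1G.neighborFinset x, (f y - f x) = 0 := by
  rw [Finset.sum_sub_distrib, Finset.sum_const, SimpleGraph.card_neighborFinset_eq_degree,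
    nsmul_eq_mul]
  have h := hf x
  have hd : (q1G.degree x : ℝ) ≠ 0 := by
    have := q1_deg_pos x
    positivity
  rw [eq_div_iff hd] at h
  rw [← h]
  ring

/-- maximum principle -/
theorem q1_max (g : Q1V → ℝ) (hg : ∀ x, ∑ y ∈ q1G.neighborFinset x, (g y - g x) = 0) (N : ℕ)
    (hN : ∀ x, N ≤ q1lv x → g x = 0) (x : Q1V) : g x ≤ 0 := by
  by_contra hx
  push Not at hx
  have hxN : q1lv x ≤ N := by
    by_contra h
    rw [hN x (by omega)] at hx
    exact lt_irrefl _ hx
  obtain ⟨x0, hx0, hmax⟩ := Set.exists_max_image _ g (q1_finite N) ⟨x, hxN⟩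
  have hM : 0 < g x0 := lt_of_lt_of_le hx (hmax x hxN)
  have hmax' : ∀ y, g y ≤ g x0 := by
    intro y
    by_cases hy : q1lv y ≤ N
    · exact hmax y hy
    · rw [hN y (by omega)]
      exact hM.le
  have key : ∀ k : ℕ, ∃ y, q1lv y = q1lv x0 + k ∧ g y = g x0 := by
    intro k
    induction k with
    | zero => exact ⟨x0, rfl, rfl⟩
    | succ k ih =>
      obtain ⟨y, hy1, hy2⟩ := ih
      have hadj := q1_nb y (q1lv y + 1) (Or.inl rfl)
      refine ⟨q1mk (q1lv y + 1) (q1st y ∩ q1I (q1lv y + 1)) Finset.inter_subset_right, ?_, ?_⟩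
      · rw [q1lv_mk, hy1]
        ring
      · have h1 := hg y
        have h2 : ∀ z ∈ q1G.neighborFinset y, g z - g y ≤ 0 := by
          intro z _
          rw [hy2]
          linarith [hmax' z]
        have h3 := (Finset.sum_eq_zero_iff_of_nonpos h2).1 h1 _
          ((SimpleGraph.mem_neighborFinset _ _ _).2 hadj)
        linarith
  obtain ⟨y, hy1, hy2⟩ := key N
  rw [hN y (by omega)] at hy2
  linarith

theorem q1_flip_inv {f : Q1V → ℝ} (hf : Harmonic q1G f) (p : ℕ) (x : Q1V) :
    f (q1flip p x) = f x := by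
  have hle : ∀ x, f (q1flip p x) - f x ≤ 0 := by
    refine q1_max _ ?_ (3 * (p + 1)) ?_
    · intro x
      have h1 : ∑ y ∈ q1G.neighborFinset x, (f (q1flip p y) - f (q1flip p x)) = 0 := by
        rw [← q1_harm_sum hf (q1flip p x)]
        refine Finset.sum_bij' (fun y _ => q1flip p y) (fun y _ => q1flip p y) ?_ ?_ ?_ ?_ ?_
        · intro y hy
          rw [SimpleGraph.mem_neighborFinset] at hy ⊢
          exact q1_flip_adj p hy
        · intro y hy
          rw [SimpleGraph.mem_neighborFinset] at hy ⊢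
          have := q1_flip_adj p hy
          rwa [q1_flip_flip] at this
        · intro y _
          exact q1_flip_flip p y
        · intro y _
          exact q1_flip_flip p y
        · intro y _
          rfl
      have h2 := q1_harm_sum hf x
      have h3 : ∑ y ∈ q1G.neighborFinset x, (f (q1flip p y) - f y - (f (q1flip p x) - f x)) =
          ∑ y ∈ q1G.neighborFinset x, (f (q1flip p y) - f (q1flip p x)) -
            ∑ y ∈ q1G.neighborFinset x, (f y - f x) := by
        rw [← Finset.sum_sub_distrib]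
        refine Finset.sum_congr rfl fun y _ => ?_
        ring
      rw [h3, h1, h2, sub_zero]
    · intro x hx
      rw [q1_flip_far p x, sub_self]
      rw [q1_mem_I]
      omega
  have h1 := hle x
  have h2 := hle (q1flip p x)
  rw [q1_flip_flip] at h2
  linarith

theorem q1_level {f : Q1V → ℝ} (hf : Harmonic q1G f) (n : ℕ) (S : Finset ℕ) :
    ∀ h : S ⊆ q1I n, f (q1mk n S h) = f (q1mk n ∅ (Finset.empty_subset _)) := by
  induction S using Finset.induction_on with
  | empty => intro h; rfl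
  | insert a S ha ih =>
    intro h
    have haI : a ∈ q1I n := h (Finset.mem_insert_self a S)
    have hS : S ⊆ q1I n := fun q hq => h (Finset.mem_insert_of_mem hq)
    rw [← ih hS, ← q1_flip_inv hf a (q1mk n S hS)]
    congr 1
    refine q1_ext rfl ?_
    ext q
    rw [q1_flip_mem, q1st_mk, q1st_mk, q1lv_mk, Finset.mem_insert]
    by_cases hq : q = a
    · subst hq
      tauto
    · tauto

theorem q1_const {f : Q1V → ℝ} (hf : Harmonic q1G f) (x y : Q1V) : f x = f y := by
  set φ : ℕ → ℝ := fun n => f (q1mk n ∅ (Finset.empty_subset _)) with hφ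
  have h1 : ∀ x, f x = φ (q1lv x) := fun x => q1_level hf (q1lv x) (q1st x) (q1_sub x)
  have h2 : ∀ n, φ n = φ 0 := by
    intro n
    induction n using Nat.strong_induction_on with
    | _ n ih =>
      rcases n with _ | n
      · rfl
      have h3 := q1_harm_sum hf (q1mk n ∅ (Finset.empty_subset _))
      have h4 := q1_sum (q1mk n ∅ (Finset.empty_subset _)) (fun m => φ m - φ n)
      have h5 : ∑ y ∈ q1G.neighborFinset (q1mk n ∅ (Finset.empty_subset _)),
          (f y - f (q1mk n ∅ (Finset.empty_subset _))) =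
          ∑ y ∈ q1G.neighborFinset (q1mk n ∅ (Finset.empty_subset _)), (φ (q1lv y) - φ n) := by
        refine Finset.sum_congr rfl fun y _ => ?_
        rw [h1 y]
      rw [h5, h4, q1lv_mk] at h3
      have h6 : φ (n - 1) - φ n = 0 := by
        rw [ih (n - 1) (by omega), ih n (by omega), sub_self]
      rw [h6, mul_zero, add_zero] at h3
      have h7 : (q1a n : ℝ) ≠ 0 := by
        unfold q1a
        split_ifs <;> norm_num
      have h8 := (mul_eq_zero.1 h3).resolve_left h7
      rw [← ih n (by omega)]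
      linarith
  rw [h1 x, h1 y, h2, h2 (q1lv y)]

/-- the potential -/
noncomputable def q1U (n : ℕ) : ℝ :=
  (if n % 3 = 0 then 8 else if n % 3 = 1 then 6 else 5) * (1 / 2) ^ (n / 3)

theorem q1U_pos (n : ℕ) : 0 < q1U n := by
  unfold q1U
  split_ifs <;> positivity

theorem q1_cases (n : ℕ) : ∃ k, n = 3 * k ∨ n = 3 * k + 1 ∨ n = 3 * k + 2 := ⟨n / 3, by omega⟩

theorem q1U_0 (k : ℕ) : q1U (3 * k) = 8 * (1 / 2) ^ k := by
  unfold q1U
  rw [if_pos (by omega)]
  congr 2
  omega

theorem q1U_1 (k : ℕ) : q1U (3 * k + 1) = 6 * (1 / 2) ^ k := by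
  unfold q1U
  rw [if_neg (by omega), if_pos (by omega)]
  congr 2
  omega

theorem q1U_2 (k : ℕ) : q1U (3 * k + 2) = 5 * (1 / 2) ^ k := by
  unfold q1U
  rw [if_neg (by omega), if_neg (by omega)]
  congr 2
  omega

theorem q1U_3 (k : ℕ) : q1U (3 * k + 2 + 1) = 4 * (1 / 2) ^ k := by
  have : 3 * k + 2 + 1 = 3 * (k + 1) := by ring
  rw [this, q1U_0, pow_succ]
  ring

theorem q1U_anti (n : ℕ) : q1U (n + 1) < q1U n := by
  obtain ⟨k, rfl | rfl | rfl⟩ := q1_cases n
  · rw [q1U_0, q1U_1]
    have : (0 : ℝ) < (1 / 2) ^ k := by positivity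
    linarith
  · have h : 3 * k + 1 + 1 = 3 * k + 2 := rfl
    rw [h, q1U_2, q1U_1]
    have : (0 : ℝ) < (1 / 2) ^ k := by positivity
    linarith
  · rw [q1U_3, q1U_2]
    have : (0 : ℝ) < (1 / 2) ^ k := by positivity
    linarith

theorem q1U_super (n : ℕ) :
    q1a n * q1U (n + 1) + q1b n * q1U (n - 1) ≤ (q1a n + q1b n) * q1U n := by
  obtain ⟨k, rfl | rfl | rfl⟩ := q1_cases n
  · rcases k with _ | k
    · have h := q1U_anti 0
      have h2 : q1b (3 * 0) = 0 := by simp [q1b]
      rw [h2]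
      have h3 : (0 : ℝ) ≤ q1a (3 * 0) := Nat.cast_nonneg _
      simp only [Nat.cast_zero, zero_mul, add_zero]
      simp only [Nat.mul_zero] at *
      exact mul_le_mul_of_nonneg_left h.le h3
    · have h1 : q1a (3 * (k + 1)) = 2 := by
        unfold q1a
        rw [if_neg (by omega)]
      have h2 : q1b (3 * (k + 1)) = 2 := by
        unfold q1b
        rw [if_neg (by omega), if_pos (by omega)]
      have h3 : 3 * (k + 1) - 1 = 3 * k + 2 := by omega
      rw [h1, h2, h3, q1U_1, q1U_2, q1U_0, pow_succ]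
      push_cast
      linarith
  · have h1 : q1a (3 * k + 1) = 2 := by
      unfold q1a
      rw [if_neg (by omega)]
    have h2 : q1b (3 * k + 1) = 1 := by
      unfold q1b
      rw [if_neg (by omega), if_neg (by omega)]
    have h3 : 3 * k + 1 - 1 = 3 * k := by omega
    have h4 : 3 * k + 1 + 1 = 3 * k + 2 := rfl
    rw [h1, h2, h3, h4, q1U_1, q1U_2, q1U_0]
    push_cast
    linarith
  · have h1 : q1a (3 * k + 2) = 1 := by
      unfold q1a
      rw [if_pos (by omega)]
    have h2 : q1b (3 * k + 2) = 1 := by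
      unfold q1b
      rw [if_neg (by omega), if_neg (by omega)]
    have h3 : 3 * k + 2 - 1 = 3 * k + 1 := by omega
    rw [h1, h2, h3, q1U_3, q1U_2, q1U_1]
    push_cast
    linarith

/-- the barrier -/
noncomputable def q1W (m : ℕ) (x : Q1V) : ℝ := min 1 (q1U (q1lv x) / q1U m)

theorem q1W_super (m : ℕ) (x : Q1V) :
    (∑ y ∈ q1G.neighborFinset x, q1W m y) / (q1G.degree x : ℝ) ≤ q1W m x := by
  have hd : (0 : ℝ) < (q1G.degree x : ℝ) := by exact_mod_cast q1_deg_pos x
  have hm := q1U_pos m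
  rw [div_le_iff₀ hd]
  unfold q1W
  rcases le_total 1 (q1U (q1lv x) / q1U m) with h | h
  · rw [min_eq_left h, one_mul]
    calc ∑ y ∈ q1G.neighborFinset x, min 1 (q1U (q1lv y) / q1U m)
        ≤ ∑ y ∈ q1G.neighborFinset x, (1 : ℝ) := Finset.sum_le_sum fun y _ => min_le_left _ _
      _ = (q1G.degree x : ℝ) := by
        rw [Finset.sum_const, SimpleGraph.card_neighborFinset_eq_degree, nsmul_eq_mul, mul_one]
  · rw [min_eq_right h]
    calc ∑ y ∈ q1G.neighborFinset x, min 1 (q1U (q1lv y) / q1U m)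
        ≤ ∑ y ∈ q1G.neighborFinset x, q1U (q1lv y) / q1U m :=
          Finset.sum_le_sum fun y _ => min_le_right _ _
      _ = (∑ y ∈ q1G.neighborFinset x, q1U (q1lv y)) / q1U m := by rw [Finset.sum_div]
      _ ≤ ((q1G.degree x : ℝ) * q1U (q1lv x)) / q1U m := by
        rw [q1_sum x q1U, q1_degree]
        push_cast
        exact div_le_div_of_nonneg_right (q1U_super _) hm.le
      _ = q1U (q1lv x) / q1U m * (q1G.degree x : ℝ) := by ring

theorem q1_hit (o : Q1V) (k : ℕ) : ∀ x, hit q1G o k x ≤ q1W (q1lv o) x := by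
  have hW : q1W (q1lv o) o = 1 := by
    unfold q1W
    rw [div_self (q1U_pos _).ne', min_self]
  have hW0 : ∀ x, 0 ≤ q1W (q1lv o) x := fun x =>
    le_min zero_le_one (div_nonneg (q1U_pos _).le (q1U_pos _).le)
  induction k with
  | zero =>
    intro x
    unfold hit
    split_ifs with h
    · rw [h, hW]
    · exact hW0 x
  | succ k ih =>
    intro x
    unfold hit
    split_ifs with h
    · rw [h, hW]
    · refine le_trans ?_ (q1W_super (q1lv o) x)
      exact div_le_div_of_nonneg_right (Finset.sum_le_sum fun y _ => ih y) (Nat.cast_nonneg _)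

theorem q1_transient : Transient q1G := by
  intro o
  refine ⟨(∑ y ∈ q1G.neighborFinset o, q1W (q1lv o) y) / (q1G.degree o : ℝ), ?_, ?_⟩
  · have hd : (0 : ℝ) < (q1G.degree o : ℝ) := by exact_mod_cast q1_deg_pos o
    rw [div_lt_one hd]
    calc ∑ y ∈ q1G.neighborFinset o, q1W (q1lv o) y
        < ∑ y ∈ q1G.neighborFinset o, (1 : ℝ) := by
          refine Finset.sum_lt_sum (fun y _ => min_le_left _ _) ⟨_,
            (SimpleGraph.mem_neighborFinset _ _ _).2 (q1_nb o (q1lv o + 1) (Or.inl rfl)), ?_⟩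
          unfold q1W
          rw [q1lv_mk]
          refine lt_of_le_of_lt (min_le_right _ _) ?_
          rw [div_lt_one (q1U_pos _)]
          exact q1U_anti _
      _ = (q1G.degree o : ℝ) := by
        rw [Finset.sum_const, SimpleGraph.card_neighborFinset_eq_degree, nsmul_eq_mul, mul_one]
  · intro k
    exact div_le_div_of_nonneg_right (Finset.sum_le_sum fun y _ => q1_hit o k y)
      (Nat.cast_nonneg _)

theorem q1_connected : q1G.Connected := by
  have h : ∀ n (x : Q1V), q1lv x = n →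
      q1G.Reachable x (q1mk 0 ∅ (Finset.empty_subset _)) := by
    intro n
    induction n with
    | zero =>
      intro x hx
      have : x = q1mk 0 ∅ (Finset.empty_subset _) := by
        refine q1_ext hx ?_
        rw [q1st_mk, ← Finset.subset_empty]
        have h1 := q1_sub x
        rw [hx] at h1
        refine h1.trans ?_
        intro q hq
        rw [q1_mem_I] at hq
        omega
      rw [this]
    | succ n ih =>
      intro x hx
      exact (q1_nb x n (Or.inr hx)).reachable.trans (ih _ rfl)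
  exact { preconnected := fun x y => (h _ x rfl).trans (h _ y rfl).symm
          nonempty := ⟨q1mk 0 ∅ (Finset.empty_subset _)⟩ }

theorem q1_infinite : Infinite Q1V :=
  Infinite.of_injective (fun n : ℕ => q1mk n ∅ (Finset.empty_subset _)) fun m n h => by
    have := congrArg q1lv h
    exact this

theorem t_Q1 : S_Q1 :=
  ⟨Q1V, q1G, inferInstance, q1_infinite, q1_connected, q1_deg_le, q1_transient,
    fun _ hf x y => q1_const hf x y⟩

end Pool.Agent.N983.LH
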