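import Pool.Agent.N983.LH.Def

set_option autoImplicit false

/-! Graphs with at least two ends have non-constant Lipschitz harmonic functions. -/

namespace Pool.Agent.N983.LH

open Finset

section q2

variable {V : Type} (G : SimpleGraph V) [G.LocallyFinite]

/-- The Laplacian. -/
noncomputable def q2_lap (h : V → ℝ) (x : V) : ℝ := ∑ y ∈ G.neighborFinset x, (h x - h y)

omit [G.LocallyFinite] in
lemma q2_prop (hG : G.Connected) (S : Set V) (x₀ : V) (hx₀ : x₀ ∈ S)
    (hS : ∀ x ∈ S, ∀ y, G.Adj x y → y ∈ S) : ∀ x, x ∈ S := by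
  intro x
  obtain ⟨p⟩ := hG.preconnected x₀ x
  induction p with
  | nil => exact hx₀
  | cons h p ih => exact ih (hS _ hx₀ _ h)

lemma q2_mp [Infinite V] (hG : G.Connected) (F : Finset V) (h : V → ℝ) (M : ℝ)
    (hF : ∀ x ∈ F, q2_lap G h x = 0) (hout : ∀ x, x ∉ F → h x ≤ M) : ∀ x, h x ≤ M := by
  by_contra hcon
  push Not at hcon
  obtain ⟨x₀, hx₀⟩ := hcon
  have hx₀F : x₀ ∈ F := by
    by_contra h'
    exact absurd (hout _ h') (not_le.2 hx₀)
  obtain ⟨m, hmF, hm⟩ := F.exists_max_image h ⟨x₀, hx₀F⟩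
  have hMm : M < h m := hx₀.trans_le (hm _ hx₀F)
  have hle : ∀ x, h x ≤ h m := fun x => by
    by_cases hx : x ∈ F
    · exact hm _ hx
    · exact (hout _ hx).trans hMm.le
  have hin : ∀ x, h x = h m → x ∈ F := by
    intro x hx
    by_contra h'
    have := hout _ h'
    rw [hx] at this
    exact absurd this (not_le.2 hMm)
  have hall : ∀ x, x ∈ {x | h x = h m} := by
    apply q2_prop G hG {x | h x = h m} m rfl
    intro x hx y hxy
    rw [Set.mem_setOf_eq] at hx ⊢
    have h0 := hF x (hin x hx)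
    rw [q2_lap, Finset.sum_eq_zero_iff_of_nonneg (fun y _ => by rw [hx]; linarith [hle y])] at h0
    have := h0 y ((G.mem_neighborFinset x y).2 hxy)
    linarith
  have hsub : (Set.univ : Set V) ⊆ (F : Set V) := fun x _ => hin x (hall x)
  exact Set.infinite_univ (F.finite_toSet.subset hsub)

lemma q2_lap_add (h k : V → ℝ) (x : V) : q2_lap G (h + k) x = q2_lap G h x + q2_lap G k x := by
  unfold q2_lap
  rw [← Finset.sum_add_distrib]
  exact Finset.sum_congr rfl fun y _ => by simp only [Pi.add_apply]; ring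

lemma q2_lap_smul (c : ℝ) (h : V → ℝ) (x : V) : q2_lap G (c • h) x = c * q2_lap G h x := by
  unfold q2_lap
  rw [Finset.mul_sum]
  exact Finset.sum_congr rfl fun y _ => by simp only [Pi.smul_apply, smul_eq_mul]; ring

lemma q2_min [Infinite V] (hG : G.Connected) (F : Finset V) (h : V → ℝ) (M : ℝ)
    (hF : ∀ x ∈ F, q2_lap G h x = 0) (hout : ∀ x, x ∉ F → M ≤ h x) : ∀ x, M ≤ h x := by
  have := q2_mp G hG F ((-1 : ℝ) • h) (-M) (fun x hx => by rw [q2_lap_smul, hF x hx, mul_zero])
    (fun x hx => by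
      simp only [Pi.smul_apply, smul_eq_mul]
      linarith [hout x hx])
  intro x
  have h1 := this x
  simp only [Pi.smul_apply, smul_eq_mul] at h1
  linarith

open Classical in
lemma q2_dir [Infinite V] (hG : G.Connected) (F : Finset V) (b : V → ℝ) :
    ∃ h : V → ℝ, (∀ x, x ∉ F → h x = b x) ∧ ∀ x ∈ F, q2_lap G h x = 0 := by
  let ext : (F → ℝ) →ₗ[ℝ] (V → ℝ) :=
    { toFun := fun g x => if hx : x ∈ F then g ⟨x, hx⟩ else 0
      map_add' := fun g g' => by
        funext x
        by_cases hx : x ∈ F <;> simp [hx]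
      map_smul' := fun c g => by
        funext x
        by_cases hx : x ∈ F <;> simp [hx] }
  let lap : (V → ℝ) →ₗ[ℝ] (V → ℝ) :=
    { toFun := q2_lap G
      map_add' := fun g g' => by funext x; exact q2_lap_add G g g' x
      map_smul' := fun c g => by funext x; exact q2_lap_smul G c g x }
  let res : (V → ℝ) →ₗ[ℝ] (F → ℝ) := LinearMap.funLeft ℝ ℝ (Subtype.val)
  have hres : ∀ (h : V → ℝ) (x : F), res h x = h x := fun _ _ => rfl
  have hlap : ∀ (h : V → ℝ), lap h = q2_lap G h := fun _ => rfl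
  have hextin : ∀ (g : F → ℝ) (x : F), ext g x = g x := fun g x => by
    show (if hx : (x : V) ∈ F then g ⟨x, hx⟩ else 0) = g x
    rw [dif_pos x.2]
  have hextout : ∀ (g : F → ℝ) (x : V), x ∉ F → ext g x = 0 := fun g x hx => by
    show (if hx : (x : V) ∈ F then g ⟨x, hx⟩ else 0) = 0
    rw [dif_neg hx]
  let L : (F → ℝ) →ₗ[ℝ] (F → ℝ) := res ∘ₗ lap ∘ₗ ext
  have hL : ∀ (g : F → ℝ) (x : F), L g x = q2_lap G (ext g) x := fun _ _ => rfl
  have hinj : Function.Injective L := by
    rw [← LinearMap.ker_eq_bot, LinearMap.ker_eq_bot']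
    intro g hg
    have h1 : ∀ x ∈ F, q2_lap G (ext g) x = 0 := by
      intro x hx
      rw [← hL g ⟨x, hx⟩, hg]
      rfl
    have h2 := q2_mp G hG F (ext g) 0 h1 (fun x hx => (hextout g x hx).le)
    have h3 := q2_min G hG F (ext g) 0 h1 (fun x hx => (hextout g x hx).ge)
    funext x
    have := le_antisymm (h2 x) (h3 x)
    rw [hextin] at this
    exact this
  have hsurj := LinearMap.injective_iff_surjective.1 hinj
  let b' : V → ℝ := fun x => if x ∈ F then 0 else b x
  obtain ⟨g, hg⟩ := hsurj (-(res (lap b')))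
  refine ⟨ext g + b', ?_, ?_⟩
  · intro x hx
    show ext g x + (if x ∈ F then 0 else b x) = b x
    rw [hextout g x hx, if_neg hx, zero_add]
  · intro x hx
    have h1 := congrFun hg ⟨x, hx⟩
    rw [hL] at h1
    rw [q2_lap_add, h1]
    show -(q2_lap G b' x) + q2_lap G b' x = 0
    ring

open Classical in
lemma q2_flow (S : Finset V) (h : V → ℝ) : ∑ x ∈ S, q2_lap G h x =
    ∑ x ∈ S, ∑ y ∈ (G.neighborFinset x).filter (fun y => y ∉ S), (h x - h y) := by
  have h1 : ∀ x, q2_lap G h x = ∑ y ∈ (G.neighborFinset x).filter (fun y => y ∈ S), (h x - h y) +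
      ∑ y ∈ (G.neighborFinset x).filter (fun y => y ∉ S), (h x - h y) := fun x =>
    (Finset.sum_filter_add_sum_filter_not _ _ _).symm
  rw [Finset.sum_congr rfl fun x _ => h1 x, Finset.sum_add_distrib]
  have h2 : ∑ x ∈ S, ∑ y ∈ (G.neighborFinset x).filter (fun y => y ∈ S), h y =
      ∑ x ∈ S, ∑ y ∈ (G.neighborFinset x).filter (fun y => y ∈ S), h x := by
    apply Finset.sum_comm'
    intro x y
    simp only [Finset.mem_filter, SimpleGraph.mem_neighborFinset]
    constructor
    · rintro ⟨a, b, c⟩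
      exact ⟨⟨b.symm, a⟩, c⟩
    · rintro ⟨⟨b, a⟩, c⟩
      exact ⟨a, b.symm, c⟩
  have h3 : ∑ x ∈ S, ∑ y ∈ (G.neighborFinset x).filter (fun y => y ∈ S), (h x - h y) = 0 := by
    simp only [Finset.sum_sub_distrib] at h2 ⊢
    rw [h2, sub_self]
  rw [h3, zero_add]

open Classical in
lemma q2_fin [Infinite V] (hG : G.Connected) (A : Set V) (K : Finset V)
    (hA : ∀ v ∈ A, ∀ u, G.Adj v u → u ∈ A ∨ u ∈ K) (hAK : ∀ v ∈ A, v ∉ K)
    (hA1 : A.Infinite) (hA2 : Aᶜ.Infinite) (o : V) (F : Finset V) (hKF : K ⊆ F)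
    (hNF : ∀ u ∈ K, ∀ v, G.Adj u v → v ∈ F) :
    ∃ f : V → ℝ, f o = 0 ∧ (∀ x ∈ F, q2_lap G f x = 0) ∧
      (∀ x y, G.Adj x y → |f x - f y| ≤ 1) ∧
      ∑ u ∈ K, ∑ v ∈ (G.neighborFinset u).filter (fun v => v ∈ A), (f v - f u) = 1 := by
  obtain ⟨h, hout, hF⟩ := q2_dir G hG F (fun x => if x ∈ A then 1 else 0)
  have h0 : ∀ x, 0 ≤ h x := q2_min G hG F h 0 hF (fun x hx => by
    rw [hout x hx]; split_ifs <;> norm_num)
  have h1 : ∀ x, h x ≤ 1 := q2_mp G hG F h 1 hF (fun x hx => by
    rw [hout x hx]; split_ifs <;> norm_num)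
  have houtA : ∀ x, x ∉ F → x ∈ A → h x = 1 := fun x hx hxA => by rw [hout x hx, if_pos hxA]
  have houtB : ∀ x, x ∉ F → x ∉ A → h x = 0 := fun x hx hxA => by rw [hout x hx, if_neg hxA]
  set Φ : ℝ := ∑ x ∈ F, ∑ y ∈ (G.neighborFinset x).filter (fun y => y ∈ A ∧ y ∉ F), (1 - h x)
    with hΦ
  have hin0 : ∀ x, 0 ≤ ∑ y ∈ (G.neighborFinset x).filter (fun y => y ∈ A ∧ y ∉ F), (1 - h x) :=
    fun x => Finset.sum_nonneg fun y _ => by linarith [h1 x]
  have hΦ0 : 0 ≤ Φ := Finset.sum_nonneg fun x _ => hin0 x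
  -- gradient bound
  have hgr : ∀ v u, G.Adj v u → h v - h u ≤ Φ := by
    intro v u hvu
    rcases le_or_gt (h v) (h u) with hle | hlt
    · linarith
    by_cases hvF : v ∈ F
    · set S : Finset V := F.filter (fun w => h v ≤ h w) with hS
      have hvS : v ∈ S := by rw [hS, Finset.mem_filter]; exact ⟨hvF, le_rfl⟩
      have huS : u ∉ S := by
        rw [hS, Finset.mem_filter]
        rintro ⟨-, h'⟩
        linarith
      have hfl := q2_flow G S h
      have hz : ∑ x ∈ S, q2_lap G h x = 0 :=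
        Finset.sum_eq_zero fun x hx => hF x (Finset.mem_filter.1 hx).1
      rw [hz] at hfl
      -- termwise bound
      have hterm : ∀ w ∈ S, ∀ y ∈ (G.neighborFinset w).filter (fun y => y ∉ S),
          (if w = v ∧ y = u then h v - h u else 0) - (if y ∈ A ∧ y ∉ F then 1 - h w else 0) ≤
            h w - h y := by
        intro w hw y hy
        obtain ⟨hwF, hwv⟩ := Finset.mem_filter.1 hw
        obtain ⟨hyw, hyS⟩ := Finset.mem_filter.1 hy
        by_cases hyF : y ∈ F
        · have hyv : h y < h v := by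
            by_contra hcon
            push Not at hcon
            exact hyS (Finset.mem_filter.2 ⟨hyF, hcon⟩)
          rw [if_neg (fun h' : y ∈ A ∧ y ∉ F => h'.2 hyF)]
          split_ifs with hc
          · rw [hc.1, hc.2, sub_zero]
          · linarith
        · by_cases hyA : y ∈ A
          · rw [if_pos (⟨hyA, hyF⟩ : y ∈ A ∧ y ∉ F), houtA y hyF hyA]
            rw [if_neg]
            · linarith
            · rintro ⟨-, rfl⟩
              rw [houtA _ hyF hyA] at hlt
              linarith [h1 v]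
          · rw [if_neg (fun h' : y ∈ A ∧ y ∉ F => hyA h'.1), houtB y hyF hyA]
            split_ifs with hc
            · rw [hc.1, ← hc.2, houtB y hyF hyA]
              simp
            · linarith [h0 w]
      have hsum := Finset.sum_le_sum fun w hw => Finset.sum_le_sum (hterm w hw)
      rw [← hfl] at hsum
      simp only [Finset.sum_sub_distrib] at hsum
      have e1 : ∑ w ∈ S, ∑ y ∈ (G.neighborFinset w).filter (fun y => y ∉ S),
          (if w = v ∧ y = u then h v - h u else 0) = h v - h u := by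
        rw [Finset.sum_eq_single_of_mem v hvS]
        · rw [Finset.sum_eq_single_of_mem u]
          · simp
          · rw [Finset.mem_filter, SimpleGraph.mem_neighborFinset]
            exact ⟨hvu, huS⟩
          · intro y _ hy
            rw [if_neg (fun h' => hy h'.2)]
        · intro w _ hw
          refine Finset.sum_eq_zero fun y _ => ?_
          rw [if_neg (fun h' => hw h'.1)]
      have e2 : ∑ w ∈ S, ∑ y ∈ (G.neighborFinset w).filter (fun y => y ∉ S),
          (if y ∈ A ∧ y ∉ F then 1 - h w else 0) ≤ Φ := by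
        rw [hΦ]
        refine le_trans (Finset.sum_le_sum (g := fun x => ∑ y ∈ (G.neighborFinset x).filter
          (fun y => y ∈ A ∧ y ∉ F), (1 - h x)) fun w _ => ?_)
          (Finset.sum_le_sum_of_subset_of_nonneg (Finset.filter_subset _ _)
            fun x _ _ => hin0 x)
        rw [← Finset.sum_filter, Finset.filter_filter]
        refine Finset.sum_le_sum_of_subset_of_nonneg ?_ (fun y _ _ => by linarith [h1 w])
        intro y hy
        rw [Finset.mem_filter] at hy ⊢
        exact ⟨hy.1, hy.2.2⟩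
      rw [e1] at hsum
      linarith
    · -- `v` is outside
      have hvA : v ∈ A := by
        by_contra hcon
        rw [houtB v hvF hcon] at hlt
        linarith [h0 u]
      have hv1 := houtA v hvF hvA
      have huF : u ∈ F := by
        by_contra huF
        rcases hA v hvA u hvu with h' | h'
        · rw [houtA u huF h', hv1] at hlt
          exact lt_irrefl _ hlt
        · exact huF (hKF h')
      rw [hv1]
      calc 1 - h u ≤ ∑ y ∈ (G.neighborFinset u).filter (fun y => y ∈ A ∧ y ∉ F), (1 - h u) :=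
            Finset.single_le_sum (f := fun _ : V => 1 - h u) (fun y _ => by linarith [h1 u])
              (Finset.mem_filter.2 ⟨(G.mem_neighborFinset u v).2 hvu.symm, hvA, hvF⟩)
        _ ≤ Φ := Finset.single_le_sum (f := fun x => ∑ y ∈ (G.neighborFinset x).filter
              (fun y => y ∈ A ∧ y ∉ F), (1 - h x)) (fun x _ => hin0 x) huF
  have hΦpos : 0 < Φ := by
    rcases hΦ0.lt_or_eq with h' | h'
    · exact h'
    exfalso
    obtain ⟨a, haA, haF⟩ := hA1.exists_notMem_finset F
    obtain ⟨b, hbA, hbF⟩ := hA2.exists_notMem_finset F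
    have hall : ∀ x, x ∈ {x | h x = h a} := by
      apply q2_prop G hG {x | h x = h a} a rfl
      intro x hx y hxy
      rw [Set.mem_setOf_eq] at hx ⊢
      have g1 := hgr x y hxy
      have g2 := hgr y x hxy.symm
      linarith
    have hb := hall b
    rw [Set.mem_setOf_eq, houtA a haF haA, houtB b hbF hbA] at hb
    norm_num at hb
  -- the cut
  have hcut : ∑ u ∈ K, ∑ v ∈ (G.neighborFinset u).filter (fun v => v ∈ A), (h v - h u) = Φ := by
    set S : Finset V := F.filter (fun w => w ∈ A) with hS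
    have hfl := q2_flow G S h
    have hz : ∑ x ∈ S, q2_lap G h x = 0 :=
      Finset.sum_eq_zero fun x hx => hF x (Finset.mem_filter.1 hx).1
    rw [hz] at hfl
    have e1 : ∀ x ∈ S, ∑ y ∈ (G.neighborFinset x).filter (fun y => y ∉ S), (h x - h y) =
        ∑ y ∈ (G.neighborFinset x).filter (fun y => y ∈ K), (h x - h y) -
          ∑ y ∈ (G.neighborFinset x).filter (fun y => y ∈ A ∧ y ∉ F), (1 - h x) := by
      intro x hx
      obtain ⟨hxF, hxA⟩ := Finset.mem_filter.1 hx
      have e2 : (G.neighborFinset x).filter (fun y => y ∉ S) =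
          (G.neighborFinset x).filter (fun y => y ∈ K) ∪
            (G.neighborFinset x).filter (fun y => y ∈ A ∧ y ∉ F) := by
        ext y
        simp only [Finset.mem_filter, Finset.mem_union, SimpleGraph.mem_neighborFinset, hS,
          not_and]
        constructor
        · rintro ⟨hxy, hy⟩
          rcases hA x hxA y hxy with h' | h'
          · exact Or.inr ⟨hxy, h', fun hyF => hy hyF h'⟩
          · exact Or.inl ⟨hxy, h'⟩
        · rintro (⟨hxy, hy⟩ | ⟨hxy, hy, hyF⟩)
          · exact ⟨hxy, fun _ h' => hAK y h' hy⟩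
          · exact ⟨hxy, fun h' => absurd h' hyF⟩
      rw [e2, Finset.sum_union]
      · rw [sub_eq_add_neg, ← Finset.sum_neg_distrib]
        congr 1
        refine Finset.sum_congr rfl fun y hy => ?_
        obtain ⟨-, hyA, hyF⟩ := Finset.mem_filter.1 hy
        rw [houtA y hyF hyA]
        ring
      · rw [Finset.disjoint_left]
        intro y hy hy'
        exact hAK y (Finset.mem_filter.1 hy').2.1 (Finset.mem_filter.1 hy).2
    rw [Finset.sum_congr rfl e1, Finset.sum_sub_distrib] at hfl
    have e3 : ∑ x ∈ S, ∑ y ∈ (G.neighborFinset x).filter (fun y => y ∈ K), (h x - h y) =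
        ∑ u ∈ K, ∑ v ∈ (G.neighborFinset u).filter (fun v => v ∈ A), (h v - h u) := by
      apply Finset.sum_comm'
      intro x y
      simp only [Finset.mem_filter, SimpleGraph.mem_neighborFinset, hS]
      constructor
      · rintro ⟨⟨a, b⟩, c, d⟩
        exact ⟨⟨c.symm, b⟩, d⟩
      · rintro ⟨⟨c, b⟩, d⟩
        exact ⟨⟨hNF y d x c, b⟩, c.symm, d⟩
    have e4 : ∑ x ∈ S, ∑ y ∈ (G.neighborFinset x).filter (fun y => y ∈ A ∧ y ∉ F), (1 - h x) =
        Φ := by
      rw [hΦ]
      refine Finset.sum_subset (Finset.filter_subset _ _) ?_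
      intro x hxF hxS
      refine Finset.sum_eq_zero fun y hy => ?_
      exfalso
      obtain ⟨hxy, hyA, hyF⟩ := Finset.mem_filter.1 hy
      rw [SimpleGraph.mem_neighborFinset] at hxy
      rcases hA y hyA x hxy.symm with h' | h'
      · exact hxS (Finset.mem_filter.2 ⟨hxF, h'⟩)
      · exact hyF (hNF x h' y hxy)
    rw [e3, e4] at hfl
    linarith
  refine ⟨fun x => (h x - h o) / Φ, by simp, ?_, ?_, ?_⟩
  · intro x hx
    have : q2_lap G (fun x => (h x - h o) / Φ) x = q2_lap G h x / Φ := by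
      unfold q2_lap
      rw [Finset.sum_div]
      exact Finset.sum_congr rfl fun y _ => by ring
    rw [this, hF x hx, zero_div]
  · intro x y hxy
    have : (h x - h o) / Φ - (h y - h o) / Φ = (h x - h y) / Φ := by ring
    rw [this, abs_div, abs_of_pos hΦpos, div_le_one hΦpos, abs_le]
    constructor
    · linarith [hgr y x hxy.symm]
    · exact hgr x y hxy
  · have : ∀ u ∈ K, ∑ v ∈ (G.neighborFinset u).filter (fun v => v ∈ A),
        ((h v - h o) / Φ - (h u - h o) / Φ) =
        (∑ v ∈ (G.neighborFinset u).filter (fun v => v ∈ A), (h v - h u)) / Φ := by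
      intro u _
      rw [Finset.sum_div]
      exact Finset.sum_congr rfl fun y _ => by ring
    rw [Finset.sum_congr rfl this, ← Finset.sum_div, hcut, div_self hΦpos.ne']

open Filter Topology

open Classical in
lemma q2_lim [Infinite V] (hG : G.Connected) (A : Set V) (K : Finset V)
    (hA : ∀ v ∈ A, ∀ u, G.Adj v u → u ∈ A ∨ u ∈ K) (hAK : ∀ v ∈ A, v ∉ K)
    (hA1 : A.Infinite) (hA2 : Aᶜ.Infinite) :
    ∃ f : V → ℝ, (∀ x, q2_lap G f x = 0) ∧ (∀ x y, G.Adj x y → |f x - f y| ≤ 1) ∧
      ∑ u ∈ K, ∑ v ∈ (G.neighborFinset u).filter (fun v => v ∈ A), (f v - f u) = 1 := by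
  obtain ⟨o⟩ := hG.nonempty
  set F₀ : Finset V := K ∪ K.biUnion (fun u => G.neighborFinset u) with hF₀
  choose f hfo hfh hfl hfc using fun F : Finset V => q2_fin G hG A K hA hAK hA1 hA2 o (F ∪ F₀)
    (fun u hu => by simp only [hF₀, Finset.mem_union]; exact Or.inr (Or.inl hu))
    (fun u hu v huv => by
      simp only [hF₀, Finset.mem_union, Finset.mem_biUnion]
      exact Or.inr (Or.inr ⟨u, hu, (G.mem_neighborFinset u v).2 huv⟩))
  have hbd : ∀ x, ∃ C : ℝ, ∀ F, |f F x| ≤ C := by
    intro x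
    have : ∀ x, x ∈ {x | ∃ C : ℝ, ∀ F, |f F x| ≤ C} := by
      apply q2_prop G hG {x | ∃ C : ℝ, ∀ F, |f F x| ≤ C} o ⟨0, fun F => by rw [hfo F, abs_zero]⟩
      rintro x ⟨C, hC⟩ y hxy
      refine ⟨C + 1, fun F => ?_⟩
      have h1 := hfl F x y hxy
      have h2 := hC F
      rw [abs_le] at h1 h2 ⊢
      constructor <;> linarith [h1.1, h1.2, h2.1, h2.2]
    exact this x
  choose C hC using hbd
  set U : Ultrafilter (Finset V) := Ultrafilter.of atTop with hU
  have hUle : (U : Filter (Finset V)) ≤ atTop := Ultrafilter.of_le _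
  have hlim : ∀ x, ∃ a : ℝ, Tendsto (fun F => f F x) U (𝓝 a) := by
    intro x
    have hc : IsCompact (Set.Icc (-C x) (C x)) := isCompact_Icc
    obtain ⟨a, -, ha⟩ := hc.ultrafilter_le_nhds (U.map (fun F => f F x)) (by
      rw [Filter.le_principal_iff]
      show (fun F => f F x) ⁻¹' Set.Icc (-C x) (C x) ∈ (U : Filter (Finset V))
      convert Filter.univ_mem
      ext F
      simp only [Set.mem_preimage, Set.mem_univ, iff_true, Set.mem_Icc]
      exact abs_le.1 (hC x F))
    exact ⟨a, ha⟩
  choose a ha using hlim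
  refine ⟨a, ?_, ?_, ?_⟩
  · intro x
    have h1 : Tendsto (fun F => q2_lap G (f F) x) U (𝓝 (q2_lap G a x)) := by
      unfold q2_lap
      exact tendsto_finsetSum _ fun y _ => (ha x).sub (ha y)
    have h2 : Tendsto (fun F => q2_lap G (f F) x) U (𝓝 0) := by
      refine Tendsto.congr' ?_ tendsto_const_nhds
      have : ∀ᶠ F in (U : Filter (Finset V)), ({x} : Finset V) ≤ F :=
        (eventually_ge_atTop ({x} : Finset V)).filter_mono hUle
      filter_upwards [this] with F hF
      exact (hfh F x (Finset.mem_union_left _ (hF (Finset.mem_singleton_self x)))).symm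
    exact tendsto_nhds_unique h1 h2
  · intro x y hxy
    exact le_of_tendsto ((ha x).sub (ha y)).abs (Eventually.of_forall fun F => hfl F x y hxy)
  · have h1 : Tendsto (fun F => ∑ u ∈ K, ∑ v ∈ (G.neighborFinset u).filter (fun v => v ∈ A),
        (f F v - f F u)) U
        (𝓝 (∑ u ∈ K, ∑ v ∈ (G.neighborFinset u).filter (fun v => v ∈ A), (a v - a u))) :=
      tendsto_finsetSum _ fun u _ => tendsto_finsetSum _ fun v _ => (ha v).sub (ha u)
    have h2 : Tendsto (fun F => ∑ u ∈ K, ∑ v ∈ (G.neighborFinset u).filter (fun v => v ∈ A),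
        (f F v - f F u)) U (𝓝 1) := by
      simp only [hfc]
      exact tendsto_const_nhds
    exact tendsto_nhds_unique h1 h2

end q2

open Classical in
theorem t_Q2 : S_Q2 := by
  rintro V G _ hG ⟨K, C₁, C₂, hne, hi1, hi2⟩
  set A : Set V := Subtype.val '' C₁.supp with hAdef
  have hinj : Function.Injective (Subtype.val : {v | v ∉ K} → V) := Subtype.val_injective
  have hA1 : A.Infinite := hi1.image hinj.injOn
  have hA2 : Aᶜ.Infinite := by
    refine (hi2.image (f := Subtype.val) hinj.injOn).mono ?_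
    rintro _ ⟨x, hx, rfl⟩ ⟨y, hy, hxy⟩
    have : y = x := hinj hxy
    subst this
    rw [SimpleGraph.ConnectedComponent.mem_supp_iff] at hx hy
    exact hne (hy.symm.trans hx)
  have : Infinite V := by
    refine Set.infinite_univ_iff.1 (hA1.mono (Set.subset_univ _))
  have hAK : ∀ v ∈ A, v ∉ K := by
    rintro _ ⟨x, -, rfl⟩
    exact x.2
  have hA : ∀ v ∈ A, ∀ u, G.Adj v u → u ∈ A ∨ u ∈ K := by
    rintro _ ⟨x, hx, rfl⟩ u hxu
    by_cases huK : u ∈ K
    · exact Or.inr huK
    left
    refine ⟨⟨u, huK⟩, ?_, rfl⟩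
    rw [SimpleGraph.ConnectedComponent.mem_supp_iff] at hx ⊢
    rw [← hx]
    apply SimpleGraph.ConnectedComponent.sound
    apply SimpleGraph.Adj.reachable
    show G.Adj u x
    exact hxu.symm
  obtain ⟨f, hf1, hf2, hf3⟩ := q2_lim G hG A K hA hAK hA1 hA2
  refine ⟨f, ?_, ⟨1, hf2⟩, ?_⟩
  · intro x
    have h1 := hf1 x
    unfold q2_lap at h1
    rw [Finset.sum_sub_distrib, Finset.sum_const, G.card_neighborFinset_eq_degree, nsmul_eq_mul]
      at h1
    have hdeg : 0 < G.degree x := by
      haveI : Nontrivial V := inferInstance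
      exact hG.preconnected.degree_pos_of_nontrivial x
    have : (G.degree x : ℝ) ≠ 0 := by positivity
    field_simp
    linarith
  · by_contra hcon
    push Not at hcon
    rw [Finset.sum_eq_zero] at hf3
    · norm_num at hf3
    · intro u _
      exact Finset.sum_eq_zero fun v _ => by rw [hcon v u, sub_self]

end Pool.Agent.N983.LH
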